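import Pool.Agent.H89.NV.TU2
import Pool.Agent.H49.NVK.LMB
import Pool.Agent.H98.CM4.EMB

/-!
# Row U_AUT of `nvk_modules`: automorphisms of the principal lattice
-/

set_option autoImplicit false

namespace Pool.Agent.H41.NVK

open MeasureTheory Set Filter NumberField NumberField.InfinitePlace
open Pool.Agent.H65.CM4 Pool.Agent.H61.NVK Pool.Agent.H89.NV
open Pool.Agent.H98.CM4 (Nr_mul Nr_nonneg Nr_zero_iff nm_span one_le_nm nm_le_of_le exists_frac)
open scoped Real

section

variable {k : Type} [Field k] [NumberField k] [IsTotallyReal k]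

theorem nm_mul' (I J : Ideal (𝓞 k)) : nm (I * J) = nm I * nm J :=
  Pool.Agent.H49.NVK.nm_mul I J

theorem coe_ne {x : 𝓞 k} (hx : x ≠ 0) : (x : k) ≠ 0 := fun h =>
  hx (RingOfIntegers.coe_eq_zero_iff.mp h)

/-- norms: `q A ⊆ B` -/
theorem nm_le_frac (A B : Ideal (𝓞 k)) (q : k) (hA : A ≠ ⊥) (hB : B ≠ ⊥) (hq : q ≠ 0)
    (h : ∀ x ∈ A, ∃ t ∈ B, (t : k) = q * x) : nm B ≤ Nr q * nm A := by
  obtain ⟨r, s, hs, hrs⟩ := exists_frac q
  have hsk : (s : k) ≠ 0 := coe_ne hs
  have hr : r ≠ 0 := by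
    rintro rfl
    have h0 : (s : k) * q = 0 := by rw [hrs]; rfl
    rcases mul_eq_zero.mp h0 with h1 | h1
    · exact hsk h1
    · exact hq h1
  have hle : Ideal.span {r} * A ≤ Ideal.span {s} * B := by
    intro u hu
    obtain ⟨x, hx, rfl⟩ := Ideal.mem_span_singleton_mul.mp hu
    obtain ⟨t, ht, hte⟩ := h x hx
    rw [Ideal.mem_span_singleton_mul]
    refine ⟨t, ht, ?_⟩
    apply RingOfIntegers.coe_injective
    show ((s * t : 𝓞 k) : k) = ((r * x : 𝓞 k) : k)
    have e1 : ((s * t : 𝓞 k) : k) = (s : k) * (t : k) := rfl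
    have e2 : ((r * x : 𝓞 k) : k) = (r : k) * (x : k) := rfl
    rw [e1, e2, hte, ← hrs]
    ring
  have hne : Ideal.span {r} * A ≠ ⊥ := by
    intro h0
    rcases Ideal.mul_eq_bot.mp h0 with h1 | h1
    · exact hr (Ideal.span_singleton_eq_bot.mp h1)
    · exact hA h1
  have h1 := nm_le_of_le hle hne
  rw [nm_mul', nm_mul', nm_span, nm_span, ← hrs, Nr_mul] at h1
  have hs0 : 0 < Nr (s : k) := lt_of_le_of_ne (Nr_nonneg _) (fun h => hsk ((Nr_zero_iff _).mp h.symm))
  have h2 : Nr (s : k) * nm B ≤ Nr (s : k) * (Nr q * nm A) := by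
    rw [← mul_assoc]
    exact h1
  exact le_of_mul_le_mul_left h2 hs0

variable {D : 𝓞 k} {K : Type} [Field K] [Algebra k K]

omit [NumberField k] [IsTotallyReal k] in
theorem osm (c : 𝓞 k) (x : k) : c • x = (c : k) * x := rfl

theorem re_alg (h : CK D K) (a : k) : h.re (algebraMap k K a) = a := by
  rw [Algebra.algebraMap_eq_smul_one, map_smul, h.re1, smul_eq_mul, mul_one]

theorem im_alg (h : CK D K) (a : k) : h.im (algebraMap k K a) = 0 := by
  rw [Algebra.algebraMap_eq_smul_one, map_smul, h.im1, smul_zero]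

theorem re_algs (h : CK D K) (a : k) (z : K) : h.re (algebraMap k K a * z) = a * h.re z := by
  rw [← Algebra.smul_def, map_smul, smul_eq_mul]

theorem im_algs (h : CK D K) (a : k) (z : K) : h.im (algebraMap k K a * z) = a * h.im z := by
  rw [← Algebra.smul_def, map_smul, smul_eq_mul]

theorem coords (h : CK D K) (a c : k) : h.re (algebraMap k K a + algebraMap k K c * h.s) = a ∧
    h.im (algebraMap k K a + algebraMap k K c * h.s) = c := by
  rw [map_add, map_add, re_alg, im_alg, re_algs, im_algs, h.res, h.ims]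
  constructor <;> ring

theorem re_im_mul (h : CK D K) (x y : K) :
    h.re (x * y) = h.re x * h.re y - (D : k) * (h.im x * h.im y) ∧
    h.im (x * y) = h.re x * h.im y + h.im x * h.re y := by
  have e : x * y = algebraMap k K (h.re x * h.re y - (D : k) * (h.im x * h.im y)) +
      algebraMap k K (h.re x * h.im y + h.im x * h.re y) * h.s := by
    conv_lhs => rw [h.eq x, h.eq y]
    simp only [map_sub, map_add, map_mul]
    linear_combination (algebraMap k K (h.im x) * algebraMap k K (h.im y)) * h.sq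
  have := coords h (h.re x * h.re y - (D : k) * (h.im x * h.im y))
    (h.re x * h.im y + h.im x * h.re y)
  rw [← e] at this
  exact this

/-- conjugation -/
noncomputable def cj (h : CK D K) : K →ₗ[𝓞 k] K :=
  ((Algebra.linearMap k K ∘ₗ h.re) -
    (LinearMap.mulRight k h.s ∘ₗ Algebra.linearMap k K ∘ₗ h.im)).restrictScalars (𝓞 k)

theorem cj_apply (h : CK D K) (z : K) :
    cj h z = algebraMap k K (h.re z) - algebraMap k K (h.im z) * h.s := rfl

theorem cj_coords (h : CK D K) (z : K) : h.re (cj h z) = h.re z ∧ h.im (cj h z) = -h.im z := by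
  have e : cj h z = algebraMap k K (h.re z) + algebraMap k K (-h.im z) * h.s := by
    rw [cj_apply, map_neg]
    ring
  rw [e]
  exact coords h _ _

theorem ext_coords (h : CK D K) {x y : K} (h1 : h.re x = h.re y) (h2 : h.im x = h.im y) : x = y := by
  rw [h.eq x, h.eq y, h1, h2]

theorem cj_mul (h : CK D K) (x y : K) : cj h (x * y) = cj h x * cj h y := by
  obtain ⟨a1, a2⟩ := cj_coords h (x * y)
  obtain ⟨b1, b2⟩ := cj_coords h x
  obtain ⟨c1, c2⟩ := cj_coords h y
  obtain ⟨d1, d2⟩ := re_im_mul h x y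
  obtain ⟨e1, e2⟩ := re_im_mul h (cj h x) (cj h y)
  apply ext_coords h
  · rw [a1, e1, d1, b1, b2, c1, c2]; ring
  · rw [a2, e2, d2, b1, b2, c1, c2]; ring

theorem cj_cj (h : CK D K) (x : K) : cj h (cj h x) = x := by
  obtain ⟨a1, a2⟩ := cj_coords h x
  obtain ⟨b1, b2⟩ := cj_coords h (cj h x)
  apply ext_coords h
  · rw [b1, a1]
  · rw [b2, a2, neg_neg]

theorem cj_alg (h : CK D K) (a : k) : cj h (algebraMap k K a) = algebraMap k K a := by
  rw [cj_apply, re_alg, im_alg, map_zero, zero_mul, sub_zero]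

theorem alg_int (x : 𝓞 k) : algebraMap (𝓞 k) K x = algebraMap k K (x : k) :=
  IsScalarTower.algebraMap_apply (𝓞 k) k K x

theorem chK (k : Type) [Field k] [NumberField k] (K : Type) [Field K] [Algebra k K] :
    CharZero K := charZero_of_injective_algebraMap (algebraMap k K).injective

theorem cj_w (h : CK D K) (b : 𝓞 k) :
    cj h ((algebraMap (𝓞 k) K b + h.s) / 2) =
      algebraMap (𝓞 k) K b - (algebraMap (𝓞 k) K b + h.s) / 2 := by
  haveI := chK k K
  have e : (algebraMap (𝓞 k) K b + h.s) / 2 =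
      algebraMap k K ((b : k) / 2) + algebraMap k K (1 / 2) * h.s := by
    rw [alg_int, map_div₀, map_div₀, map_one, map_ofNat]
    ring
  obtain ⟨h1, h2⟩ := coords h ((b : k) / 2) (1 / 2)
  rw [e, cj_apply, h1, h2, alg_int, map_div₀, map_div₀, map_one, map_ofNat]
  ring

theorem map_cj (h : CK D K) (f : Ideal (𝓞 k)) (b : 𝓞 k) (hb : b ∈ f) :
    (Lam h f ⊤ b).map (cj h) = Lam h f ⊤ b := by
  have hle : (Lam h f ⊤ b).map (cj h) ≤ Lam h f ⊤ b := by
    unfold Lam
    rw [Submodule.map_sup, sup_le_iff]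
    constructor
    · rw [← Submodule.map_comp]
      rintro z ⟨x, hx, rfl⟩
      apply Submodule.mem_sup_left
      refine ⟨x, hx, ?_⟩
      show algebraMap (𝓞 k) K x = cj h (algebraMap (𝓞 k) K x)
      rw [alg_int, cj_alg]
    · rw [Submodule.map_span, Set.image_singleton, Submodule.span_le, Set.singleton_subset_iff]
      rw [cj_w]
      apply Submodule.sub_mem
      · apply Submodule.mem_sup_left
        refine ⟨b, ?_, rfl⟩
        show b ∈ ⊤ * f
        rw [Ideal.top_mul]
        exact hb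
      · exact Submodule.mem_sup_right (Submodule.subset_span rfl)
  apply le_antisymm hle
  intro z hz
  refine ⟨cj h z, hle ⟨z, hz, rfl⟩, cj_cj h z⟩

theorem map_hom (h : CK D K) (J : Ideal (𝓞 k)) (g : K) (L : Submodule (𝓞 k) K)
    (hL : L.map (cj h) = L) : (hom J g L).map (cj h) = hom J (cj h g) L := by
  unfold hom
  rw [Submodule.map_smul'']
  conv_rhs => rw [← hL]
  rw [← Submodule.map_comp, ← Submodule.map_comp]
  congr 2
  ext x
  show cj h (g * x) = cj h g * cj h x
  exact cj_mul h g x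

theorem nk_eq (h : CK D K) (z : K) : nk h z = h.re z ^ 2 + (D : k) * h.im z ^ 2 := rfl

/-- the imaginary parts of the elements of the lattice -/
theorem im_Lam (h : CK D K) (f I : Ideal (𝓞 k)) (b : 𝓞 k) (z : K)
    (hz : z ∈ hom I 1 (Lam h f ⊤ b)) : ∃ t ∈ I, (t : k) = 2 * h.im z := by
  haveI := chK k K
  rw [Pool.Agent.H49.NVK.mem_hom] at hz
  obtain ⟨u, hu, rfl⟩ := hz
  refine ⟨u.2, (Pool.Agent.H49.NVK.mem_Lb.mp hu).2, ?_⟩
  have e : zz h b u = algebraMap k K ((u.1 : k) + (u.2 : k) * ((b : k) / 2)) +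
      algebraMap k K ((u.2 : k) / 2) * h.s := by
    unfold zz
    rw [alg_int, alg_int, alg_int, map_add, map_mul, map_div₀, map_div₀, map_ofNat]
    ring
  rw [e, (coords h _ _).2]
  ring

theorem hom_top (h : CK D K) (f : Ideal (𝓞 k)) (b : 𝓞 k) :
    hom ⊤ 1 (Lam h f ⊤ b) = Lam h f ⊤ b := by
  unfold hom
  rw [LinearMap.mulLeft_one, Submodule.map_id, Submodule.top_smul]

theorem alg_mem_Lam (h : CK D K) (f : Ideal (𝓞 k)) (b x : 𝓞 k) (hx : x ∈ f) :
    algebraMap (𝓞 k) K x ∈ Lam h f ⊤ b := by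
  unfold Lam
  apply Submodule.mem_sup_left
  refine ⟨x, ?_, rfl⟩
  show x ∈ ⊤ * f
  rw [Ideal.top_mul]
  exact hx

theorem Nr_two : Nr (2 : k) = 2 ^ dg k := by
  unfold Nr
  have : ∀ v : Pl k, |rv v (2 : k)| = 2 := by
    intro v
    rw [map_ofNat]
    norm_num
  rw [Finset.prod_congr rfl (fun v _ => this v), Finset.prod_const, Finset.card_univ,
    Pool.Agent.H98.CM4.card_pl]

theorem Nr_sq (q : k) : ∏ v : Pl k, rv v q ^ 2 = Nr q ^ 2 := by
  unfold Nr
  rw [← Finset.prod_pow]
  exact Finset.prod_congr rfl (fun v _ => (sq_abs _).symm)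

theorem nm_top : nm (⊤ : Ideal (𝓞 k)) = 1 := by
  unfold nm
  rw [Ideal.absNorm_top]
  norm_num

end

theorem pf_AUT (k : Type) [Field k] [NumberField k] [IsTotallyReal k]
    (hIDL : T_IDL k) (hCKB : T_CKB k) (hIXN : T_IXN k) : T_AUT k := by
  intro f D b hf hD hb hb4 hbig K _ _ h I J g hI hJ hg heq
  haveI := chK k K
  obtain ⟨-, -, -, -, -, -, hcan⟩ := hIDL
  obtain ⟨hnk, hpos, -, -, -, -, -, -⟩ := hCKB D hD K h
  have hF : Fm f D ⊤ b := ⟨by
    intro h0
    have : (1 : 𝓞 k) ∈ (⊥ : Ideal (𝓞 k)) := h0 ▸ Submodule.mem_top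
    rw [Ideal.mem_bot] at this
    exact one_ne_zero this, hb, by rwa [Ideal.top_mul]⟩
  set L := Lam h f ⊤ b with hLdef
  -- the norm of `D`
  set ND : ℝ := ∏ v : Pl k, rv v (D : k) with hND
  have hND0 : 0 < ND := Finset.prod_pos (fun v _ => hD v)
  have hf1 : 1 ≤ nm f := one_le_nm f hf
  have hbig' : 4 ^ dg k * nm f ^ 2 < ND := by
    have e1 : sd f (em D) = Real.sqrt ND / nm f := rfl
    rw [e1, lt_div_iff₀ (by linarith)] at hbig
    have h2 : (2 ^ dg k * nm f) ^ 2 < ND := by
      rw [← Real.lt_sqrt (by positivity)]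
      exact hbig
    have h3 : (4 : ℝ) ^ dg k * nm f ^ 2 = (2 ^ dg k * nm f) ^ 2 := by
      rw [mul_pow, ← pow_mul, mul_comm (dg k) 2, pow_mul]
      norm_num
    rw [h3]
    exact h2
  -- positivity of the norm
  have hνg : ∀ v : Pl k, 0 < rv v (nk h g) := hpos g hg
  obtain ⟨v0⟩ := (inferInstance : Nonempty (Pl k))
  have hnk0 : nk h g ≠ 0 := by
    intro h0
    have := hνg v0
    rw [h0, map_zero] at this
    exact lt_irrefl _ this
  -- conjugation
  have hLc : L.map (cj h) = L := map_cj h f b hb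
  have hc1 : cj h 1 = 1 := by
    have := cj_alg h (1 : k)
    rw [map_one] at this
    exact this
  have heq2 : hom J (cj h g) L = hom I 1 L := by
    have := congrArg (Submodule.map (cj h)) heq
    rw [map_hom h J g L hLc, map_hom h I 1 L hLc, hc1] at this
    exact this
  have heq3 : L.map (LinearMap.mulLeft (𝓞 k) g) = L.map (LinearMap.mulLeft (𝓞 k) (cj h g)) := by
    apply hcan K J _ _ hJ
    show hom J g L = hom J (cj h g) L
    rw [heq, heq2]
  set ζ : K := cj h g / g with hζ
  have hζg : ζ * g = cj h g := div_mul_cancel₀ _ hg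
  have hζL : ∀ x ∈ L, ζ * x ∈ L := by
    intro x hx
    have h1 : cj h g * x ∈ L.map (LinearMap.mulLeft (𝓞 k) g) := by
      rw [heq3]
      exact ⟨x, hx, rfl⟩
    obtain ⟨y, hy, hye⟩ := h1
    have hye' : g * y = cj h g * x := hye
    have : ζ * x = y := by
      rw [hζ, div_mul_eq_mul_div, ← hye', mul_div_cancel_left₀ _ hg]
    rw [this]
    exact hy
  have hnc : nk h (cj h g) = nk h g := by
    rw [nk_eq, nk_eq, (cj_coords h g).1, (cj_coords h g).2]
    ring
  have hnζ : nk h ζ = 1 := by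
    have h1 := hnk ζ g
    rw [hζg, hnc] at h1
    exact mul_right_cancel₀ hnk0 (by rw [one_mul]; exact h1.symm)
  by_cases him : h.im ζ = 0
  · -- `ζ = ± 1`
    have hr : (h.re ζ) ^ 2 = 1 := by
      rw [nk_eq, him] at hnζ
      simpa using hnζ
    have hζr : ζ = algebraMap k K (h.re ζ) := by
      conv_lhs => rw [h.eq ζ, him, map_zero, zero_mul, add_zero]
    have hr' : h.re ζ * h.re ζ = 1 := by
      rw [← sq]
      exact hr
    rcases mul_self_eq_one_iff.mp hr' with h1 | h1
    · have h2 : cj h g = g := by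
        rw [← hζg, hζr, h1, map_one, one_mul]
      have h3 := (cj_coords h g).2
      rw [h2] at h3
      have h4 : 2 * h.im g = 0 := by linear_combination h3
      rcases mul_eq_zero.mp h4 with h5 | h5
      · exact absurd h5 two_ne_zero
      · exact h5
    · have h2 : cj h g = -g := by
        rw [← hζg, hζr, h1, map_neg, map_one, neg_one_mul]
      have h3 := (cj_coords h g).1
      rw [h2, map_neg] at h3
      have h4 : 2 * h.re g = 0 := by linear_combination -h3
      have hre : h.re g = 0 := by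
        rcases mul_eq_zero.mp h4 with h5 | h5
        · exact absurd h5 two_ne_zero
        · exact h5
      by_contra hq
      have hq2 : 2 * h.im g ≠ 0 := mul_ne_zero two_ne_zero hq
      have hJf : J * f ≠ ⊥ := by
        intro h0
        rcases Ideal.mul_eq_bot.mp h0 with h6 | h6
        · exact hJ h6
        · exact hf h6
      have hincl : ∀ z ∈ J * f, ∃ t ∈ I, (t : k) = (2 * h.im g) * z := by
        intro z hz
        refine Submodule.mul_induction_on hz ?_ ?_
        · intro y hy x hx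
          have h7 : y • (g * algebraMap (𝓞 k) K x) ∈ hom J g L :=
            Submodule.smul_mem_smul hy ⟨_, alg_mem_Lam h f b x hx, rfl⟩
          rw [heq] at h7
          obtain ⟨t, ht, hte⟩ := im_Lam h f I b _ h7
          refine ⟨t, ht, ?_⟩
          rw [hte]
          have e1 : y • (g * algebraMap (𝓞 k) K x) =
              algebraMap k K ((y : k) * (x : k)) * g := by
            rw [Algebra.smul_def, alg_int, alg_int, map_mul]
            ring
          rw [e1, im_algs]
          have e2 : ((y * x : 𝓞 k) : k) = (y : k) * (x : k) := rfl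
          rw [e2]
          ring
        · rintro x y ⟨t, ht, hte⟩ ⟨t', ht', hte'⟩
          refine ⟨t + t', Ideal.add_mem _ ht ht', ?_⟩
          have e1 : ((t + t' : 𝓞 k) : k) = (t : k) + (t' : k) := rfl
          have e2 : ((x + y : 𝓞 k) : k) = (x : k) + (y : k) := rfl
          rw [e1, e2, hte, hte']
          ring
      have h8 := nm_le_frac (J * f) I (2 * h.im g) hJf hI hq2 hincl
      rw [Nr_mul, Nr_two, nm_mul'] at h8
      have h9 := (hIXN D hD K h f J I ⊤ ⊤ b b g hf hJ hI hF hF hg heq).1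
      rw [nm_top, mul_one, mul_one] at h9
      have h10 : ∏ v : Pl k, rv v (nk h g) = ND * Nr (h.im g) ^ 2 := by
        rw [← Nr_sq, hND, ← Finset.prod_mul_distrib]
        apply Finset.prod_congr rfl
        intro v _
        rw [nk_eq, hre]
        simp
      rw [h10] at h9
      have hNq : 0 < Nr (h.im g) :=
        lt_of_le_of_ne (Nr_nonneg _) (fun h => hq ((Nr_zero_iff _).mp h.symm))
      have hnJ : 1 ≤ nm J := one_le_nm J hJ
      have hnI : 1 ≤ nm I := one_le_nm I hI
      have h11 : nm I ^ 2 ≤ (2 ^ dg k * Nr (h.im g) * (nm J * nm f)) ^ 2 :=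
        pow_le_pow_left₀ (by linarith) h8 2
      have h12 : (2 ^ dg k * Nr (h.im g) * (nm J * nm f)) ^ 2 =
          (4 ^ dg k * nm f ^ 2) * (Nr (h.im g) ^ 2 * nm J ^ 2) := by
        have : (4 : ℝ) ^ dg k = (2 ^ dg k) ^ 2 := by
          rw [← pow_mul, mul_comm (dg k) 2, pow_mul]
          norm_num
        rw [this]
        ring
      have h13 : ND * (Nr (h.im g) ^ 2 * nm J ^ 2) = nm I ^ 2 := by
        rw [← h9]
        ring
      have h14 : 0 < Nr (h.im g) ^ 2 * nm J ^ 2 := by positivity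
      have h15 : ND ≤ 4 ^ dg k * nm f ^ 2 := by
        apply le_of_mul_le_mul_right _ h14
        rw [h13, ← h12]
        exact h11
      linarith
  · -- `ζ` is not in `k`
    exfalso
    have hv2 : 2 * h.im ζ ≠ 0 := mul_ne_zero two_ne_zero him
    have htop : (⊤ : Ideal (𝓞 k)) ≠ ⊥ := hF.ne
    have hincl : ∀ x ∈ f, ∃ t ∈ (⊤ : Ideal (𝓞 k)), (t : k) = (2 * h.im ζ) * x := by
      intro x hx
      have h1 : ζ * algebraMap (𝓞 k) K x ∈ hom ⊤ 1 (Lam h f ⊤ b) := by
        rw [hom_top]
        exact hζL _ (alg_mem_Lam h f b x hx)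
      obtain ⟨t, ht, hte⟩ := im_Lam h f ⊤ b _ h1
      refine ⟨t, ht, ?_⟩
      rw [hte, mul_comm ζ, alg_int, im_algs]
      ring
    have h8 := nm_le_frac f ⊤ (2 * h.im ζ) hf htop hv2 hincl
    rw [Nr_mul, Nr_two, nm_top] at h8
    have h9 : ND * Nr (h.im ζ) ^ 2 ≤ 1 := by
      rw [← Nr_sq, hND, ← Finset.prod_mul_distrib]
      apply Finset.prod_le_one
      · intro v _
        have := hD v
        positivity
      · intro v _
        have h10 := congrArg (rv v) hnζ
        rw [nk_eq, map_add, map_mul, map_pow, map_pow, map_one] at h10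
        nlinarith [sq_nonneg (rv v (h.re ζ))]
    have hN0 : 0 ≤ Nr (h.im ζ) := Nr_nonneg _
    have h11 : 1 ≤ (2 ^ dg k * Nr (h.im ζ) * nm f) ^ 2 := one_le_pow₀ h8
    have h12 : (2 ^ dg k * Nr (h.im ζ) * nm f) ^ 2 =
        (4 ^ dg k * nm f ^ 2) * Nr (h.im ζ) ^ 2 := by
      have : (4 : ℝ) ^ dg k = (2 ^ dg k) ^ 2 := by
        rw [← pow_mul, mul_comm (dg k) 2, pow_mul]
        norm_num
      rw [this]
      ring
    rw [h12] at h11
    have h13 : 0 < Nr (h.im ζ) :=
      lt_of_le_of_ne (Nr_nonneg _) (fun h => him ((Nr_zero_iff _).mp h.symm))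
    have h14 : (4 ^ dg k * nm f ^ 2) * Nr (h.im ζ) ^ 2 < ND * Nr (h.im ζ) ^ 2 :=
      mul_lt_mul_of_pos_right hbig' (by positivity)
    linarith

end Pool.Agent.H41.NVK
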